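import Mathlib

set_option autoImplicit false

namespace Pool.Agent.Work.MP_7453a1_nt

/-- The real linear form `X + Y ρ + Z ρ²`. -/
def L (ρ : ℝ) (X Y Z : ℤ) : ℝ := X + Y * ρ + Z * ρ ^ 2

/-- The square of the absolute value of the complex conjugate of `X + Y ρ + Z ρ²`. -/
def Q (ρ : ℝ) (X Y Z : ℤ) : ℝ :=
  (X : ℝ) ^ 2 + (ρ ^ 2 - 1) * Y ^ 2 + (1 + ρ - ρ ^ 2) * Z ^ 2 - ρ * X * Y + (2 - ρ ^ 2) * X * Z
    - Y * Z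

/-- The norm form. -/
def Nf (X Y Z : ℤ) : ℤ :=
  X ^ 3 + Y ^ 3 + Z ^ 3 - X * Y ^ 2 - 3 * X * Y * Z + 2 * X ^ 2 * Z + X * Z ^ 2 - Y * Z ^ 2

lemma L_mul_Q {ρ : ℝ} (hρ : ρ ^ 3 = ρ + 1) (X Y Z : ℤ) :
    L ρ X Y Z * Q ρ X Y Z = (Nf X Y Z : ℤ) := by
  unfold L Q Nf
  push_cast
  linear_combination (-(ρ * X * Z ^ 2) + ρ * Y ^ 2 * Z - ρ * Z ^ 3 - 2 * X * Y * Z + Y ^ 3
    - Y * Z ^ 2 + Z ^ 3 : ℝ) * hρ

lemma Q_sq {ρ : ℝ} (hρ : ρ ^ 3 = ρ + 1) (X Y Z : ℤ) :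
    4 * Q ρ X Y Z = (2 * X - ρ * Y + (2 - ρ ^ 2) * Z) ^ 2 + (3 * ρ ^ 2 - 4) * (Y - ρ * Z) ^ 2 := by
  unfold Q
  linear_combination (-(4 * ρ * Z ^ 2) + 4 * Y * Z : ℝ) * hρ

lemma Nf_even (X Y Z : ℤ) (h : Nf X Y Z = 0) : X % 2 = 0 ∧ Y % 2 = 0 ∧ Z % 2 = 0 := by
  have h1 : ((Nf X Y Z : ℤ) : ZMod 2) = 0 := by rw [h]; simp
  unfold Nf at h1
  push_cast at h1
  have key : ∀ a b c : ZMod 2, a ^ 3 + b ^ 3 + c ^ 3 - a * b ^ 2 - 3 * a * b * c + 2 * a ^ 2 * c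
      + a * c ^ 2 - b * c ^ 2 = 0 → a = 0 ∧ b = 0 ∧ c = 0 := by decide
  obtain ⟨ha, hb, hc⟩ := key _ _ _ h1
  have conv : ∀ x : ℤ, ((x : ℤ) : ZMod 2) = 0 → x % 2 = 0 := by
    intro x hx
    have := (ZMod.intCast_zmod_eq_zero_iff_dvd x 2).mp hx
    omega
  exact ⟨conv _ ha, conv _ hb, conv _ hc⟩

lemma Nf_eq_zero (X Y Z : ℤ) (h : Nf X Y Z = 0) : X = 0 ∧ Y = 0 ∧ Z = 0 := by
  have key : ∀ N : ℕ, ∀ X Y Z : ℤ, X.natAbs + Y.natAbs + Z.natAbs ≤ N → Nf X Y Z = 0 →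
      X = 0 ∧ Y = 0 ∧ Z = 0 := by
    intro N
    induction N with
    | zero => intro X Y Z hN _; omega
    | succ N ih =>
      intro X Y Z hN h
      obtain ⟨hx, hy, hz⟩ := Nf_even X Y Z h
      obtain ⟨a, rfl⟩ : ∃ a, X = 2 * a := ⟨X / 2, by omega⟩
      obtain ⟨b, rfl⟩ : ∃ b, Y = 2 * b := ⟨Y / 2, by omega⟩
      obtain ⟨c, rfl⟩ : ∃ c, Z = 2 * c := ⟨Z / 2, by omega⟩
      have h2 : Nf (2 * a) (2 * b) (2 * c) = 8 * Nf a b c := by unfold Nf; ring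
      have h3 : Nf a b c = 0 := by omega
      by_cases h0 : a = 0 ∧ b = 0 ∧ c = 0
      · obtain ⟨rfl, rfl, rfl⟩ := h0
        simp
      · have := ih a b c (by omega) h3
        exact absurd this h0
  exact key _ X Y Z le_rfl h

/-- Numerical bounds for the real root of `x³ = x + 1`. -/
lemma rho_bounds {ρ : ℝ} (hρ : ρ ^ 3 = ρ + 1) : 1.3247 < ρ ∧ ρ < 1.3248 := by
  have h1 : 0 < ρ := by
    by_contra hcon
    push Not at hcon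
    nlinarith [sq_nonneg ρ, sq_nonneg (ρ + 1), mul_nonneg (neg_nonneg.mpr hcon) (sq_nonneg (ρ + 1))]
  constructor
  · by_contra hcon
    push Not at hcon
    have h2 : ρ ^ 2 ≤ 1.3247 ^ 2 := pow_le_pow_left₀ h1.le hcon 2
    nlinarith
  · by_contra hcon
    push Not at hcon
    have h2 : 1.3248 ^ 2 ≤ ρ ^ 2 := pow_le_pow_left₀ (by norm_num) hcon 2
    nlinarith

lemma rho_sq_bounds {ρ : ℝ} (hρ : ρ ^ 3 = ρ + 1) : 1.7548 < ρ ^ 2 ∧ ρ ^ 2 < 1.7551 := by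
  obtain ⟨h1, h2⟩ := rho_bounds hρ
  constructor <;> nlinarith

lemma mul_bd {r M y c : ℝ} (h0 : 0 ≤ r) (h1 : r ≤ M) (hy1 : -c ≤ y) (hy2 : y ≤ c) :
    -(M * c) ≤ r * y ∧ r * y ≤ M * c := by
  have hy : |y| ≤ c := abs_le.mpr ⟨hy1, hy2⟩
  have h2 : |r * y| ≤ M * c := by
    rw [abs_mul, abs_of_nonneg h0]
    exact mul_le_mul h1 hy (abs_nonneg y) (h0.trans h1)
  exact abs_le.mp h2

/-- Bounds on the integer coordinates of lattice points in a small cylinder. -/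
lemma small_bound {ρ : ℝ} (hρ : ρ ^ 3 = ρ + 1) (X Y Z : ℤ) (hL : |L ρ X Y Z| ≤ 5 / 4)
    (hQ : Q ρ X Y Z ≤ 1.26) : (-2 < Z ∧ Z < 2) ∧ (-4 < Y ∧ Y < 4) ∧ (-4 < X ∧ X < 4) := by
  obtain ⟨r1, r2⟩ := rho_bounds hρ
  obtain ⟨s1, s2⟩ := rho_sq_bounds hρ
  have hsq := Q_sq hρ X Y Z
  set P : ℝ := Y - ρ * Z with hP
  set R : ℝ := 2 * X - ρ * Y + (2 - ρ ^ 2) * Z with hR
  have hP0 : 0 ≤ P ^ 2 := sq_nonneg P
  have hR0 : 0 ≤ R ^ 2 := sq_nonneg R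
  have hP2 : P ^ 2 < 2 ^ 2 := by
    have h1 : 1.264 * P ^ 2 ≤ (3 * ρ ^ 2 - 4) * P ^ 2 :=
      mul_le_mul_of_nonneg_right (by linarith) hP0
    linarith
  have hR2 : R ^ 2 < 2.25 ^ 2 := by
    have h1 : 0 ≤ (3 * ρ ^ 2 - 4) * P ^ 2 := mul_nonneg (by linarith) hP0
    linarith
  obtain ⟨p1, p2⟩ := abs_lt_of_sq_lt_sq' hP2 (by norm_num)
  obtain ⟨q1, q2⟩ := abs_lt_of_sq_lt_sq' hR2 (by norm_num)
  rw [abs_le] at hL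
  obtain ⟨l1, l2⟩ := hL
  have hLR : 2 * L ρ X Y Z - R = 3 * (ρ * P) + (6 * ρ ^ 2 - 2) * Z := by
    rw [hP, hR]; unfold L; ring
  obtain ⟨a1, a2⟩ := mul_bd (r := ρ) (M := 1.3248) (by linarith) r2.le p1.le p2.le
  have hZ1 : (Z : ℝ) < 2 := by
    by_contra hcon
    push Not at hcon
    have : 8.5 * 2 ≤ (6 * ρ ^ 2 - 2) * Z :=
      mul_le_mul (by linarith) hcon (by norm_num) (by linarith)
    linarith
  have hZ2 : (-2 : ℝ) < Z := by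
    by_contra hcon
    push Not at hcon
    have : 8.5 * 2 ≤ (6 * ρ ^ 2 - 2) * (-Z) :=
      mul_le_mul (by linarith) (by linarith) (by norm_num) (by linarith)
    linarith
  have hZ1' : Z < 2 := by exact_mod_cast hZ1
  have hZ2' : -2 < Z := by exact_mod_cast hZ2
  have hZ3 : (Z : ℝ) ≤ 1 := by exact_mod_cast (by omega : Z ≤ 1)
  have hZ4 : (-1 : ℝ) ≤ Z := by exact_mod_cast (by omega : -1 ≤ Z)
  obtain ⟨b1, b2⟩ := mul_bd (r := ρ) (M := 1.3248) (by linarith) r2.le hZ4 hZ3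
  have hY1 : (Y : ℝ) < 4 := by linarith
  have hY2 : (-4 : ℝ) < Y := by linarith
  have hY1' : Y < 4 := by exact_mod_cast hY1
  have hY2' : -4 < Y := by exact_mod_cast hY2
  have hY3 : (Y : ℝ) ≤ 3 := by exact_mod_cast (by omega : Y ≤ 3)
  have hY4 : (-3 : ℝ) ≤ Y := by exact_mod_cast (by omega : -3 ≤ Y)
  obtain ⟨c1, c2⟩ := mul_bd (r := ρ) (M := 1.3248) (by linarith) r2.le hY4 hY3
  obtain ⟨d1, d2⟩ := mul_bd (r := 2 - ρ ^ 2) (M := 0.2452) (by linarith) (by linarith) hZ4 hZ3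
  have hX1 : (X : ℝ) < 4 := by linarith
  have hX2 : (-4 : ℝ) < X := by linarith
  have hX1' : X < 4 := by exact_mod_cast hX1
  have hX2' : -4 < X := by exact_mod_cast hX2
  exact ⟨⟨hZ2', hZ1'⟩, ⟨hY2', hY1'⟩, hX2', hX1'⟩

set_option maxHeartbeats 4000000 in
/-- The only lattice points in a small cylinder. -/
lemma small {ρ : ℝ} (hρ : ρ ^ 3 = ρ + 1) (X Y Z : ℤ) (hL : |L ρ X Y Z| ≤ 5 / 4)
    (hQ : Q ρ X Y Z ≤ 1.26) :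
    (X = 0 ∧ Y = 0 ∧ Z = 0) ∨ (X = 1 ∧ Y = 0 ∧ Z = 0) ∨ (X = -1 ∧ Y = 0 ∧ Z = 0) := by
  obtain ⟨r1, r2⟩ := rho_bounds hρ
  obtain ⟨s1, s2⟩ := rho_sq_bounds hρ
  obtain ⟨⟨z1, z2⟩, ⟨y1, y2⟩, x1, x2⟩ := small_bound hρ X Y Z hL hQ
  rw [abs_le] at hL
  obtain ⟨l1, l2⟩ := hL
  unfold L at l1 l2
  unfold Q at hQ
  clear hρ
  generalize ρ ^ 2 = s at *
  interval_cases Z <;> interval_cases Y <;> norm_num at l1 l2 hQ <;> interval_cases X <;>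
    first
    | (exfalso; push_cast at l1 l2; linarith)
    | (exfalso; push_cast at l1 l2 hQ; linarith)
    | simp

end Pool.Agent.Work.MP_7453a1_nt
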