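import Mathlib
import Pool.Agent.Work.MP_7453a1_nt.Defs
import Pool.Agent.Work.MP_7453a1_nt.Plastic

set_option autoImplicit false

namespace Pool.Agent.Work.MP_7453a1_nt

/-- Multiplication by `ρ` on coordinates. -/
def U (v : ℤ × ℤ × ℤ) : ℤ × ℤ × ℤ := (v.2.2, v.1 + v.2.2, v.2.1)

/-- Coordinates of `ρ ^ k`. -/
def zv : ℕ → ℤ × ℤ × ℤ
  | 0 => (1, 0, 0)
  | k + 1 => U (zv k)

lemma L_U {ρ : ℝ} (hρ : ρ ^ 3 = ρ + 1) (X Y Z : ℤ) :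
    L ρ Z (X + Z) Y = ρ * L ρ X Y Z := by
  unfold L
  push_cast
  linear_combination (-(Z : ℝ)) * hρ

lemma Q_U {ρ : ℝ} (hρ : ρ ^ 3 = ρ + 1) (X Y Z : ℤ) :
    ρ * Q ρ Z (X + Z) Y = Q ρ X Y Z := by
  unfold Q
  push_cast
  linear_combination ((X : ℝ) ^ 2 + 2 * X * Z - Y ^ 2 - Y * Z + Z ^ 2) * hρ

lemma L_zv {ρ : ℝ} (hρ : ρ ^ 3 = ρ + 1) (k : ℕ) :
    L ρ (zv k).1 (zv k).2.1 (zv k).2.2 = ρ ^ k := by
  induction k with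
  | zero => simp [zv, L]
  | succ k ih =>
    show L ρ (zv k).2.2 ((zv k).1 + (zv k).2.2) (zv k).2.1 = ρ ^ (k + 1)
    rw [L_U hρ, ih, pow_succ]; ring

lemma Q_zv {ρ : ℝ} (hρ : ρ ^ 3 = ρ + 1) (k : ℕ) :
    Q ρ (zv k).1 (zv k).2.1 (zv k).2.2 * ρ ^ k = 1 := by
  induction k with
  | zero => simp [zv, Q]
  | succ k ih =>
    show Q ρ (zv k).2.2 ((zv k).1 + (zv k).2.2) (zv k).2.1 * ρ ^ (k + 1) = 1
    have h := Q_U hρ (zv k).1 (zv k).2.1 (zv k).2.2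
    rw [← ih, ← h, pow_succ]; ring

/-- Lattice points in the `k`-th cylinder. -/
lemma small_k {ρ : ℝ} (hρ : ρ ^ 3 = ρ + 1) (k : ℕ) : ∀ X Y Z : ℤ,
    |L ρ X Y Z| ≤ 5 / 4 * ρ ^ k → Q ρ X Y Z * ρ ^ k ≤ 1.26 →
    (X = 0 ∧ Y = 0 ∧ Z = 0) ∨ (X = (zv k).1 ∧ Y = (zv k).2.1 ∧ Z = (zv k).2.2) ∨
      (X = -(zv k).1 ∧ Y = -(zv k).2.1 ∧ Z = -(zv k).2.2) := by
  have hρ0 : 0 < ρ := by have := (rho_bounds hρ).1; linarith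
  induction k with
  | zero =>
    intro X Y Z hL hQ
    have := small hρ X Y Z (by simpa using hL) (by simpa using hQ)
    simpa [zv] using this
  | succ k ih =>
    intro X Y Z hL hQ
    -- apply the inverse map
    have h1 := L_U hρ (Y - X) Z X
    have h2 := Q_U hρ (Y - X) Z X
    rw [show Y - X + X = Y by ring] at h1 h2
    have hL' : |L ρ (Y - X) Z X| ≤ 5 / 4 * ρ ^ k := by
      rw [h1, abs_mul, abs_of_pos hρ0, pow_succ] at hL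
      have : ρ * |L ρ (Y - X) Z X| ≤ ρ * (5 / 4 * ρ ^ k) := by linarith
      exact le_of_mul_le_mul_left this hρ0
    have hQ' : Q ρ (Y - X) Z X * ρ ^ k ≤ 1.26 := by
      rw [← h2]
      rw [pow_succ] at hQ
      linarith
    rcases ih (Y - X) Z X hL' hQ' with ⟨a, b, c⟩ | ⟨a, b, c⟩ | ⟨a, b, c⟩
    · left
      refine ⟨c, ?_, b⟩
      omega
    · right; left
      show X = (zv k).2.2 ∧ Y = (zv k).1 + (zv k).2.2 ∧ Z = (zv k).2.1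
      exact ⟨c, by omega, b⟩
    · right; right
      show X = -(zv k).2.2 ∧ Y = -((zv k).1 + (zv k).2.2) ∧ Z = -(zv k).2.1
      exact ⟨c, by omega, b⟩

/-- The two coordinates of `Θ`. -/
noncomputable def th1 (ρ : ℝ) : ℝ := (25 + 7 * ρ - 8 * ρ ^ 2) / 37
noncomputable def th2 (ρ : ℝ) : ℝ := (-14 + 2 * ρ + 3 * ρ ^ 2) / 37

/-- The quadratic form in the error vector. -/
def Qe (ρ e1 e2 : ℝ) : ℝ :=
  e1 ^ 2 + (8 - 2 * ρ - 3 * ρ ^ 2) * (e1 * e2) + (6 + 7 * ρ - 8 * ρ ^ 2) * e2 ^ 2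

/-- With `X = p₁ + p₂`, `Y = q + 2 p₂`, `Z = q + 3 p₂`. -/
lemma Q_eq_Qe {ρ : ℝ} (hρ : ρ ^ 3 = ρ + 1) (q p1 p2 : ℤ) :
    Q ρ (p1 + p2) (q + 2 * p2) (q + 3 * p2)
      = Qe ρ (q * th1 ρ - p1) (q * th2 ρ - p2) := by
  have h : ∀ X Y Z : ℤ, Q ρ X Y Z = Qe ρ (((3 * Y - 2 * Z : ℤ) : ℝ) * th1 ρ - ((X + Y - Z : ℤ) : ℝ))
      (((3 * Y - 2 * Z : ℤ) : ℝ) * th2 ρ - ((Z - Y : ℤ) : ℝ)) := by
    intro X Y Z
    unfold Q Qe th1 th2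
    push_cast
    linear_combination (-(27 / 37 * ρ * X * Y - 18 / 37 * ρ * X * Z - 36 / 37 * ρ * Y ^ 2
      + 63 / 37 * ρ * Y * Z - 26 / 37 * ρ * Z ^ 2 + 36 / 37 * X * Y - 24 / 37 * X * Z
      - 39 / 37 * Y ^ 2 + 35 / 37 * Y * Z - 6 / 37 * Z ^ 2) : ℝ) * hρ
  have h2 := h (p1 + p2) (q + 2 * p2) (q + 3 * p2)
  rw [show 3 * (q + 2 * p2) - 2 * (q + 3 * p2) = q by ring,
    show p1 + p2 + (q + 2 * p2) - (q + 3 * p2) = p1 by ring,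
    show q + 3 * p2 - (q + 2 * p2) = p2 by ring] at h2
  exact h2

/-- The linear form in terms of `q` and the error vector. -/
lemma L_eq {ρ : ℝ} (hρ : ρ ^ 3 = ρ + 1) (q p1 p2 : ℤ) :
    L ρ (p1 + p2) (q + 2 * p2) (q + 3 * p2)
      = (23 + 39 * ρ + 3 * ρ ^ 2) / 37 * q - (q * th1 ρ - p1)
        - (1 + 2 * ρ + 3 * ρ ^ 2) * (q * th2 ρ - p2) := by
  unfold L th1 th2
  push_cast
  linear_combination (((9 * ρ + 12) * q / 37 : ℝ)) * hρ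

lemma Qe_le {ρ : ℝ} (hρ : ρ ^ 3 = ρ + 1) (e1 e2 : ℝ) :
    Qe ρ e1 e2 ≤ 1.245 * (e1 ^ 2 + e2 ^ 2) := by
  obtain ⟨r1, r2⟩ := rho_bounds hρ
  obtain ⟨s1, s2⟩ := rho_sq_bounds hρ
  unfold Qe
  have hb0 : 0 ≤ 8 - 2 * ρ - 3 * ρ ^ 2 := by linarith
  have hb1 : 0 ≤ 0.0863 - (8 - 2 * ρ - 3 * ρ ^ 2) := by linarith
  have h1 := mul_nonneg hb0 (sq_nonneg (5.6 * e1 - e2))
  have h2 : 0 ≤ (0.0863 - (8 - 2 * ρ - 3 * ρ ^ 2)) * (5.6 ^ 2 * e1 ^ 2 + e2 ^ 2) :=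
    mul_nonneg hb1 (by positivity)
  have h3 : (6 + 7 * ρ - 8 * ρ ^ 2) * e2 ^ 2 ≤ 1.2352 * e2 ^ 2 :=
    mul_le_mul_of_nonneg_right (by linarith) (sq_nonneg _)
  have h4 := sq_nonneg e1
  have h5 := sq_nonneg e2
  nlinarith

lemma Qe_ge {ρ : ℝ} (hρ : ρ ^ 3 = ρ + 1) (e1 e2 : ℝ) :
    0.991 * (e1 ^ 2 + e2 ^ 2) ≤ Qe ρ e1 e2 := by
  obtain ⟨r1, r2⟩ := rho_bounds hρ
  obtain ⟨s1, s2⟩ := rho_sq_bounds hρ
  unfold Qe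
  have hb0 : 0 ≤ 8 - 2 * ρ - 3 * ρ ^ 2 := by linarith
  have hb1 : 0 ≤ 0.0863 - (8 - 2 * ρ - 3 * ρ ^ 2) := by linarith
  have h1 := mul_nonneg hb0 (sq_nonneg (0.2 * e1 + e2))
  have h2 : 0 ≤ (0.0863 - (8 - 2 * ρ - 3 * ρ ^ 2)) * (0.2 ^ 2 * e1 ^ 2 + e2 ^ 2) :=
    mul_nonneg hb1 (by positivity)
  have h3 : 1.232 * e2 ^ 2 ≤ (6 + 7 * ρ - 8 * ρ ^ 2) * e2 ^ 2 :=
    mul_le_mul_of_nonneg_right (by linarith) (sq_nonneg _)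
  have h4 := sq_nonneg e1
  have h5 := sq_nonneg e2
  nlinarith

end Pool.Agent.Work.MP_7453a1_nt
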