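import Mathlib
import Pool.Agent.Work.MP_7453a1_nt.Chain

set_option autoImplicit false

namespace Pool.Agent.Work.MP_7453a1_nt

open Filter Topology
open scoped ENNReal

variable {m : ℕ}

/-- The vector `Θ` in `ℝ^(m+2)`. -/
noncomputable def TH (ρ : ℝ) (m : ℕ) : Fin (m + 2) → ℝ :=
  Fin.cons (th1 ρ) (Fin.cons (th2 ρ) (fun _ => 0))

lemma dist2_sq (ρ : ℝ) (q : ℤ) (p : Fin (m + 2) → ℤ) :
    (dist2 (TH ρ m) q p) ^ 2 = (q * th1 ρ - p 0) ^ 2 + (q * th2 ρ - p 1) ^ 2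
      + ∑ i : Fin m, (p i.succ.succ : ℝ) ^ 2 := by
  unfold dist2
  rw [Real.sq_sqrt (Finset.sum_nonneg fun i _ => sq_nonneg _)]
  rw [Fin.sum_univ_succ, Fin.sum_univ_succ]
  simp only [TH, Fin.cons_zero, Fin.cons_succ, mul_zero, zero_sub, neg_sq]
  have h : (Fin.succ 0 : Fin (m + 2)) = 1 := rfl
  rw [h]
  ring

lemma dist2_nonneg (ρ : ℝ) (q : ℤ) (p : Fin (m + 2) → ℤ) : 0 ≤ dist2 (TH ρ m) q p :=
  Real.sqrt_nonneg _

lemma admissible {ρ : ℝ} (hρ : ρ ^ 3 = ρ + 1) : Admissible (TH ρ m) := by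
  intro q hq p
  by_contra hcon
  push Not at hcon
  have h0 := hcon 0
  have h1 := hcon 1
  have h2 : (q : ℝ) * th1 ρ - p 0 = 0 := sub_eq_zero.mpr h0
  have h3 : (q : ℝ) * th2 ρ - p 1 = 0 := sub_eq_zero.mpr h1
  have h4 := Q_eq_Qe hρ q (p 0) (p 1)
  rw [h2, h3] at h4
  have h5 : Q ρ (p 0 + p 1) (q + 2 * p 1) (q + 3 * p 1) = 0 := by
    rw [h4]; unfold Qe; ring
  have h6 := L_mul_Q hρ (p 0 + p 1) (q + 2 * p 1) (q + 3 * p 1)
  rw [h5, mul_zero] at h6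
  have h7 : Nf (p 0 + p 1) (q + 2 * p 1) (q + 3 * p 1) = 0 := by exact_mod_cast h6.symm
  obtain ⟨a, b, c⟩ := Nf_eq_zero _ _ _ h7
  omega

/-- The denominators of the chain. -/
def a (k : ℕ) : ℤ := 3 * (zv k).2.1 - 2 * (zv k).2.2

/-- The numerators of the chain. -/
def pp (m k : ℕ) : Fin (m + 2) → ℤ :=
  Fin.cons ((zv k).1 + (zv k).2.1 - (zv k).2.2) (Fin.cons ((zv k).2.2 - (zv k).2.1) (fun _ => 0))

lemma a_rec (k : ℕ) : a (k + 3) = a (k + 1) + a k := by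
  simp only [a, zv, U]
  ring

lemma a_abs {ρ : ℝ} (hρ : ρ ^ 3 = ρ + 1) (k : ℕ) : |(a k : ℝ)| ≤ 3 * ρ ^ k := by
  have hr := (rho_bounds hρ).1
  have hρ0 : 0 < ρ := by linarith
  have key : |(a k : ℝ)| ≤ 3 * ρ ^ k ∧ |(a (k + 1) : ℝ)| ≤ 3 * ρ ^ (k + 1) ∧
      |(a (k + 2) : ℝ)| ≤ 3 * ρ ^ (k + 2) := by
    induction k with
    | zero =>
      have h0 : a 0 = 0 := by decide
      have h1 : a 1 = 3 := by decide
      have h2 : a 2 = -2 := by decide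
      rw [h0, h1, h2]
      norm_num
      refine ⟨?_, ?_⟩ <;> nlinarith
    | succ k ih =>
      obtain ⟨i1, i2, i3⟩ := ih
      refine ⟨i2, i3, ?_⟩
      rw [show k + 1 + 2 = k + 3 by ring, a_rec]
      push_cast
      calc |(a (k + 1) : ℝ) + a k| ≤ |(a (k + 1) : ℝ)| + |(a k : ℝ)| := abs_add_le _ _
        _ ≤ 3 * ρ ^ (k + 1) + 3 * ρ ^ k := add_le_add i2 i1
        _ = 3 * (ρ ^ k * (ρ + 1)) := by ring
        _ = 3 * ρ ^ (k + 3) := by rw [← hρ]; ring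
  exact key.1

lemma a_mono (k : ℕ) : 0 < a (k + 8) ∧ a (k + 8) < a (k + 9) ∧ a (k + 9) < a (k + 10) ∧
    a (k + 10) < a (k + 11) := by
  induction k with
  | zero => decide
  | succ k ih =>
    obtain ⟨h1, h2, h3, h4⟩ := ih
    have e1 : a (k + 11) = a (k + 9) + a (k + 8) := a_rec (k + 8)
    have e2 : a (k + 12) = a (k + 10) + a (k + 9) := a_rec (k + 9)
    rw [show k + 1 + 8 = k + 9 by ring, show k + 1 + 9 = k + 10 by ring,
      show k + 1 + 10 = k + 11 by ring, show k + 1 + 11 = k + 12 by ring]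
    refine ⟨by omega, h3, h4, by omega⟩

lemma rho_pow_large {ρ : ℝ} (hρ : ρ ^ 3 = ρ + 1) (k : ℕ) (hk : 20 ≤ k) : 270 < ρ ^ k := by
  have hr := (rho_bounds hρ).1
  calc (270 : ℝ) < 1.3247 ^ 20 := by norm_num
    _ ≤ ρ ^ 20 := pow_le_pow_left₀ (by norm_num) hr.le 20
    _ ≤ ρ ^ k := pow_le_pow_right₀ (by linarith) hk

/-- The `k`-th chain vector is a best approximation vector. -/
lemma isBest {ρ : ℝ} (hρ : ρ ^ 3 = ρ + 1) (k : ℕ) (hk : 20 ≤ k) :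
    IsBest (TH ρ m) (a k) (pp m k) := by
  obtain ⟨r1, r2⟩ := rho_bounds hρ
  obtain ⟨s1, s2⟩ := rho_sq_bounds hρ
  have hρ0 : 0 < ρ := by linarith
  have hpos : 0 < a k := by
    obtain ⟨j, rfl⟩ : ∃ j, k = j + 8 := ⟨k - 8, by omega⟩
    exact (a_mono j).1
  have hbig := rho_pow_large hρ k hk
  -- data of the chain vector
  set X := (zv k).1 with hX
  set Y := (zv k).2.1 with hY
  set Z := (zv k).2.2 with hZ
  have hLk := L_zv hρ k
  have hQk := Q_zv hρ k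
  rw [← hX, ← hY, ← hZ] at hLk hQk
  have hak : a k = 3 * Y - 2 * Z := rfl
  have hp0 : pp m k 0 = X + Y - Z := rfl
  have hp1 : pp m k 1 = Z - Y := rfl
  have hpi : ∀ i : Fin m, pp m k i.succ.succ = 0 := fun i => rfl
  set e1 : ℝ := (a k : ℝ) * th1 ρ - pp m k 0 with he1
  set e2 : ℝ := (a k : ℝ) * th2 ρ - pp m k 1 with he2
  have hQe : Qe ρ e1 e2 = Q ρ X Y Z := by
    rw [he1, he2, ← Q_eq_Qe hρ, hak, hp0, hp1]
    congr 1 <;> ring
  have hLe : L ρ X Y Z = (23 + 39 * ρ + 3 * ρ ^ 2) / 37 * (a k : ℝ) - e1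
      - (1 + 2 * ρ + 3 * ρ ^ 2) * e2 := by
    rw [he1, he2, ← L_eq hρ, hak, hp0, hp1]
    congr 1 <;> ring
  have hE1 := Qe_ge hρ e1 e2
  rw [hQe] at hE1
  have hdk : (dist2 (TH ρ m) (a k) (pp m k)) ^ 2 = e1 ^ 2 + e2 ^ 2 := by
    rw [dist2_sq]
    simp only [hpi]
    simp [he1, he2]
  have hQsmall : Q ρ X Y Z < 1 / 270 := by
    rw [lt_div_iff₀ (by norm_num)]
    have hQ0 : 0 ≤ Q ρ X Y Z := by
      refine le_trans ?_ hE1
      positivity
    have : 0 < Q ρ X Y Z := by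
      rcases hQ0.eq_or_lt with h | h
      · rw [← h] at hQk; norm_num at hQk
      · exact h
    nlinarith
  have hEsmall : e1 ^ 2 + e2 ^ 2 < 0.062 ^ 2 := by
    have : (0.991 : ℝ) * (e1 ^ 2 + e2 ^ 2) < 1 / 270 := lt_of_le_of_lt hE1 hQsmall
    norm_num at this ⊢
    linarith
  refine ⟨hpos.ne', ?_⟩
  intro q' p' hq' hd'
  have hd2 : (dist2 (TH ρ m) q' p') ^ 2 ≤ (dist2 (TH ρ m) (a k) (pp m k)) ^ 2 :=
    pow_le_pow_left₀ (dist2_nonneg _ _ _) hd' 2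
  rw [hdk, dist2_sq] at hd2
  set f1 : ℝ := (q' : ℝ) * th1 ρ - p' 0 with hf1
  set f2 : ℝ := (q' : ℝ) * th2 ρ - p' 1 with hf2
  have hsum0 : 0 ≤ ∑ i : Fin m, (p' i.succ.succ : ℝ) ^ 2 :=
    Finset.sum_nonneg fun i _ => sq_nonneg _
  have hpz : ∀ i : Fin m, p' i.succ.succ = 0 := by
    intro i
    by_contra hne
    have h1 : (1 : ℝ) ≤ (p' i.succ.succ : ℝ) ^ 2 := by
      have : 1 ≤ (p' i.succ.succ) ^ 2 := by
        have := sq_pos_of_ne_zero hne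
        omega
      exact_mod_cast this
    have h2 : (p' i.succ.succ : ℝ) ^ 2 ≤ ∑ i : Fin m, (p' i.succ.succ : ℝ) ^ 2 :=
      Finset.single_le_sum (f := fun i : Fin m => (p' i.succ.succ : ℝ) ^ 2)
        (fun i _ => sq_nonneg _) (Finset.mem_univ i)
    have h3 := sq_nonneg f1
    have h4 := sq_nonneg f2
    norm_num at hEsmall
    linarith
  have hF : f1 ^ 2 + f2 ^ 2 ≤ e1 ^ 2 + e2 ^ 2 := by linarith
  -- coordinates
  have hQf : Qe ρ f1 f2 = Q ρ (p' 0 + p' 1) (q' + 2 * p' 1) (q' + 3 * p' 1) := by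
    rw [hf1, hf2, Q_eq_Qe hρ]
  have hLf := L_eq hρ q' (p' 0) (p' 1)
  rw [← hf1, ← hf2] at hLf
  have hQ' : Q ρ (p' 0 + p' 1) (q' + 2 * p' 1) (q' + 3 * p' 1) * ρ ^ k ≤ 1.26 := by
    rw [← hQf]
    have h1 := Qe_le hρ f1 f2
    have h2 : Qe ρ f1 f2 ≤ 1.26 * Q ρ X Y Z := by
      have h3 : 0 ≤ f1 ^ 2 + f2 ^ 2 := by positivity
      nlinarith
    calc Qe ρ f1 f2 * ρ ^ k ≤ 1.26 * Q ρ X Y Z * ρ ^ k :=
          mul_le_mul_of_nonneg_right h2 (by positivity)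
      _ = 1.26 := by rw [mul_assoc, hQk, mul_one]
  have hL' : |L ρ (p' 0 + p' 1) (q' + 2 * p' 1) (q' + 3 * p' 1)| ≤ 5 / 4 * ρ ^ k := by
    have habs : ∀ x : ℝ, x ^ 2 < 0.062 ^ 2 → |x| < 0.062 := by
      intro x hx
      exact abs_lt_of_sq_lt_sq hx (by norm_num)
    have a1 := habs e1 (by have := sq_nonneg e2; linarith)
    have a2 := habs e2 (by have := sq_nonneg e1; linarith)
    have b1 := habs f1 (by have := sq_nonneg f2; linarith)
    have b2 := habs f2 (by have := sq_nonneg f1; linarith)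
    set A := (23 + 39 * ρ + 3 * ρ ^ 2) / 37 with hA
    set C := 1 + 2 * ρ + 3 * ρ ^ 2 with hC
    have hA0 : 0 < A := by rw [hA]; positivity
    have hC0 : 0 < C := by rw [hC]; positivity
    have hC9 : C ≤ 9 := by rw [hC]; linarith
    have hqq : |(q' : ℝ)| ≤ (a k : ℝ) := by
      rw [abs_of_pos hpos] at hq'
      exact_mod_cast hq'
    rw [hLf]
    have h1 : A * (a k : ℝ) = ρ ^ k + e1 + C * e2 := by
      rw [← hLk, hLe]; ring
    have h2 : |C * f2| ≤ 9 * 0.062 := by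
      rw [abs_mul, abs_of_pos hC0]
      exact mul_le_mul hC9 b2.le (abs_nonneg _) (by norm_num)
    have h3 : |C * e2| ≤ 9 * 0.062 := by
      rw [abs_mul, abs_of_pos hC0]
      exact mul_le_mul hC9 a2.le (abs_nonneg _) (by norm_num)
    have h4 : |A * (q' : ℝ)| ≤ A * (a k : ℝ) := by
      rw [abs_mul, abs_of_pos hA0]
      exact mul_le_mul_of_nonneg_left hqq hA0.le
    rw [abs_lt] at a1 b1
    rw [abs_le] at h2 h3 h4
    rw [abs_le]
    constructor <;> linarith [h2.1, h2.2, h3.1, h3.2, h4.1, h4.2, a1.1, a1.2, b1.1, b1.2]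
  rcases small_k hρ k _ _ _ hL' hQ' with ⟨x0, y0, z0⟩ | ⟨x0, y0, z0⟩ | ⟨x0, y0, z0⟩
  · left
    have hq0 : q' = 0 := by omega
    have hp00 : p' 0 = 0 := by omega
    have hp10 : p' 1 = 0 := by omega
    refine ⟨hq0, ?_⟩
    funext i
    refine Fin.cases hp00 (fun j => ?_) i
    refine Fin.cases hp10 (fun l => ?_) j
    exact hpz l
  · right; left
    rw [← hX] at x0
    rw [← hY] at y0
    rw [← hZ] at z0
    have hq0 : q' = a k := by rw [hak]; omega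
    have hp00 : p' 0 = pp m k 0 := by rw [hp0]; omega
    have hp10 : p' 1 = pp m k 1 := by rw [hp1]; omega
    refine ⟨hq0, ?_⟩
    funext i
    refine Fin.cases hp00 (fun j => ?_) i
    refine Fin.cases hp10 (fun l => ?_) j
    rw [hpz l, hpi l]
  · right; right
    rw [← hX] at x0
    rw [← hY] at y0
    rw [← hZ] at z0
    have hq0 : q' = -a k := by rw [hak]; omega
    have hp00 : p' 0 = -pp m k 0 := by rw [hp0]; omega
    have hp10 : p' 1 = -pp m k 1 := by rw [hp1]; omega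
    refine ⟨hq0, ?_⟩
    funext i
    refine Fin.cases hp00 (fun j => ?_) i
    refine Fin.cases hp10 (fun l => ?_) j
    rw [hpz l, Pi.neg_apply, hpi l, neg_zero]

end Pool.Agent.Work.MP_7453a1_nt
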