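import Mathlib
import Pool.Agent.Work.MP_7453a1_nt.Defs
import Pool.Agent.Work.MP_7453a1_nt.Upper

set_option autoImplicit false

namespace Pool.Agent.Work.MP_7453a1_nt

open Filter Topology
open scoped ENNReal

variable {m : ℕ}

lemma a_pos (k : ℕ) (hk : 8 ≤ k) : 0 < a k := by
  obtain ⟨j, rfl⟩ : ∃ j, k = j + 8 := ⟨k - 8, by omega⟩
  exact (a_mono j).1

lemma a_lt (k : ℕ) (hk : 8 ≤ k) : a k < a (k + 1) := by
  obtain ⟨j, rfl⟩ : ∃ j, k = j + 8 := ⟨k - 8, by omega⟩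
  exact (a_mono j).2.1

/-- Denominators as natural numbers. -/
def b (j : ℕ) : ℕ := (a (20 + j)).natAbs

lemma b_lt (j : ℕ) : b j < b (j + 1) := by
  unfold b
  have h1 := a_pos (20 + j) (by omega)
  have h2 := a_lt (20 + j) (by omega)
  rw [show 20 + (j + 1) = 20 + j + 1 by ring]
  omega

lemma b_strictMono : StrictMono b := strictMono_nat_of_lt_succ b_lt

lemma b_isBest {ρ : ℝ} (hρ : ρ ^ 3 = ρ + 1) (j : ℕ) : IsBestDenominator (TH ρ m) (b j) :=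
  ⟨a (20 + j), pp m (20 + j), isBest hρ (20 + j) (by omega), rfl⟩

lemma infinite {ρ : ℝ} (hρ : ρ ^ 3 = ρ + 1) :
    {M : ℕ | IsBestDenominator (TH ρ m) M}.Infinite := by
  apply Set.Infinite.mono (s := Set.range b)
  · rintro _ ⟨j, rfl⟩
    exact b_isBest hρ j
  · exact Set.infinite_range_of_injective b_strictMono.injective

lemma nth_le {ρ : ℝ} (hρ : ρ ^ 3 = ρ + 1) (j : ℕ) :
    Nat.nth (IsBestDenominator (TH ρ m)) j ≤ b j := by
  classical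
  have hcount : ∀ i : ℕ, i ≤ Nat.count (IsBestDenominator (TH ρ m)) (b i) := by
    intro i
    induction i with
    | zero => exact Nat.zero_le _
    | succ i ih =>
      calc i + 1 ≤ Nat.count (IsBestDenominator (TH ρ m)) (b i) + 1 := by omega
        _ = Nat.count (IsBestDenominator (TH ρ m)) (b i + 1) := by
          rw [Nat.count_succ, if_pos (b_isBest hρ i)]
        _ ≤ Nat.count (IsBestDenominator (TH ρ m)) (b (i + 1)) :=
          Nat.count_monotone _ (b_lt i)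
  calc Nat.nth (IsBestDenominator (TH ρ m)) j
      ≤ Nat.nth (IsBestDenominator (TH ρ m)) (Nat.count (IsBestDenominator (TH ρ m)) (b j)) :=
        Nat.nth_monotone (infinite hρ) (hcount j)
    _ = b j := Nat.nth_count (b_isBest hρ j)

lemma M_le {ρ : ℝ} (hρ : ρ ^ 3 = ρ + 1) (ν : ℕ) (hν : 1 ≤ ν) :
    (M (TH ρ m) ν : ℝ) ≤ 3 * ρ ^ 19 * ρ ^ ν := by
  have h1 : M (TH ρ m) ν ≤ b (ν - 1) := nth_le hρ (ν - 1)
  have h2 : (b (ν - 1) : ℝ) = |(a (19 + ν) : ℝ)| := by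
    unfold b
    rw [show 20 + (ν - 1) = 19 + ν by omega, Nat.cast_natAbs, Int.cast_abs]
  calc (M (TH ρ m) ν : ℝ) ≤ (b (ν - 1) : ℝ) := by exact_mod_cast h1
    _ = |(a (19 + ν) : ℝ)| := h2
    _ ≤ 3 * ρ ^ (19 + ν) := a_abs hρ _
    _ = 3 * ρ ^ 19 * ρ ^ ν := by ring

lemma G_le {ρ : ℝ} (hρ : ρ ^ 3 = ρ + 1) : G (TH ρ m) ≤ ENNReal.ofReal ρ := by
  have hρ0 : 0 < ρ := by linarith [(rho_bounds hρ).1]
  have hlim : Tendsto (fun ν : ℕ => ENNReal.ofReal ((3 * ρ ^ 19) ^ (1 / (ν : ℝ)) * ρ)) atTop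
      (𝓝 (ENNReal.ofReal ρ)) := by
    apply ENNReal.tendsto_ofReal
    have h1 : Tendsto (fun ν : ℕ => (3 * ρ ^ 19 : ℝ) ^ (1 / (ν : ℝ))) atTop
        (𝓝 ((3 * ρ ^ 19 : ℝ) ^ (0 : ℝ))) := by
      apply Tendsto.rpow tendsto_const_nhds tendsto_one_div_atTop_nhds_zero_nat
      left
      positivity
    rw [Real.rpow_zero] at h1
    simpa using h1.mul_const ρ
  rw [← hlim.liminf_eq]
  unfold G
  refine liminf_le_liminf ?_
  filter_upwards [eventually_ge_atTop 1] with ν hν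
  apply ENNReal.ofReal_le_ofReal
  have hν0 : (0 : ℝ) < ν := by exact_mod_cast hν
  calc (M (TH ρ m) ν : ℝ) ^ (1 / (ν : ℝ)) ≤ (3 * ρ ^ 19 * ρ ^ ν) ^ (1 / (ν : ℝ)) :=
        Real.rpow_le_rpow (Nat.cast_nonneg _) (M_le hρ ν hν) (by positivity)
    _ = (3 * ρ ^ 19) ^ (1 / (ν : ℝ)) * ρ := by
      rw [Real.mul_rpow (by positivity) (by positivity)]
      congr 1
      rw [one_div, Real.pow_rpow_inv_natCast hρ0.le (by omega)]

theorem main (n : ℕ) (hn : 2 ≤ n) (ρ : ℝ) (hρ : ρ ^ 3 = ρ + 1) :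
    (∃ Θ : Fin n → ℝ, Admissible Θ ∧ {M : ℕ | IsBestDenominator Θ M}.Infinite ∧
      G Θ ≤ ENNReal.ofReal ρ) ∧ g n ≤ ENNReal.ofReal ρ := by
  obtain ⟨m, rfl⟩ : ∃ m, n = m + 2 := ⟨n - 2, by omega⟩
  refine ⟨⟨TH ρ m, admissible hρ, infinite hρ, G_le hρ⟩, ?_⟩
  exact iInf₂_le_of_le (TH ρ m) (admissible hρ) (G_le hρ)

end Pool.Agent.Work.MP_7453a1_nt
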