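import Pool.Agent.Work.MP_7453a1_nt.Defs
import Pool.Agent.Work.MP_7453a1_nt.Final

set_option autoImplicit false

/-! Former hand-in EuclidUpper (upper bound in all dimensions), kept here. -/

namespace Pool.Agent.Results.MP_7453a1_nt.EuclidUpper

open Pool.Agent.Work.MP_7453a1_nt

/-- For every `n ≥ 2`, with the Euclidean norm on `ℝⁿ` and `m = 1`, the constant `g` is at most
the real root `ρ = 1.3247…` of `ρ³ = ρ + 1`; moreover some `Θ` satisfying (∗), with infinitely
many best approximation denominators, has `G(Θ) ≤ ρ`. -/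
theorem result (n : ℕ) (hn : 2 ≤ n) (ρ : ℝ) (hρ : ρ ^ 3 = ρ + 1) :
    (∃ Θ : Fin n → ℝ, Admissible Θ ∧ {M : ℕ | IsBestDenominator Θ M}.Infinite ∧
      G Θ ≤ ENNReal.ofReal ρ) ∧ g n ≤ ENNReal.ofReal ρ :=
  main n hn ρ hρ

end Pool.Agent.Results.MP_7453a1_nt.EuclidUpper
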